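import Pool.Agent.Work.SR95.Interface

/-!
# Block FLUX of the split theorem
-/

set_option autoImplicit false

open Finset

namespace Pool.Agent.Work.SR95

namespace FLUXAux

/-- `n` integers of an interval of length `n`, distinct modulo `n`. -/
lemma sum_interval {n : ℕ} (f : Fin n → ℤ) (i : ℤ) (h1 : ∀ r, i - n < f r) (h2 : ∀ r, f r ≤ i)
    (h3 : ∀ r r', f r ≡ f r' [ZMOD n] → r = r') :
    2 * ∑ r, f r = (n : ℤ) * (2 * i - n + 1) := by
  classical
  have hinj : Function.Injective f := fun r r' h => h3 r r' (by rw [h])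
  have himg : univ.image f = Ioc (i - n) i := by
    apply eq_of_subset_of_card_le
    · intro q hq
      obtain ⟨r, -, rfl⟩ := mem_image.1 hq
      exact mem_Ioc.2 ⟨h1 r, h2 r⟩
    · rw [card_image_of_injective _ hinj, card_univ, Fintype.card_fin, Int.card_Ioc]
      have : i - (i - (n : ℤ)) = n := by ring
      rw [this]
      simp
  have hsum : ∑ r, f r = ∑ q ∈ Ioc (i - (n : ℤ)) i, q := by
    rw [← himg, sum_image (fun a _ b _ h => hinj h)]
  have hclosed : ∀ m : ℕ, 2 * ∑ q ∈ Ioc (i - (m : ℤ)) i, q = (m : ℤ) * (2 * i - m + 1) := by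
    intro m
    induction m with
    | zero => simp
    | succ m ih =>
      have hI : Ioc (i - ((m + 1 : ℕ) : ℤ)) i = insert (i - (m : ℤ)) (Ioc (i - (m : ℤ)) i) := by
        ext q
        simp only [mem_insert, mem_Ioc]
        push_cast
        omega
      have hn : i - (m : ℤ) ∉ Ioc (i - (m : ℤ)) i := by simp
      rw [hI, sum_insert hn, mul_add, ih]
      push_cast
      ring
  rw [hsum, hclosed n]

/-- `n` integers above `k`, distinct modulo `n`. -/
lemma sum_lower {n : ℕ} (hn : 0 < n) (f : Fin n → ℤ) (k : ℤ) (h1 : ∀ r, k < f r)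
    (h3 : ∀ r r', f r ≡ f r' [ZMOD n] → r = r') :
    (n : ℤ) * (2 * k + n + 1) ≤ 2 * ∑ r, f r := by
  have hn' : (0 : ℤ) < n := by exact_mod_cast hn
  set g : Fin n → ℤ := fun r => k + 1 + (f r - (k + 1)) % n with hg
  have hmod : ∀ r, g r ≡ f r [ZMOD n] := by
    intro r
    show (k + 1 + (f r - (k + 1)) % n) % n = f r % n
    rw [Int.add_emod_emod]
    congr 1
    ring
  have h0 : ∀ r, 0 ≤ (f r - (k + 1)) % n := fun r => Int.emod_nonneg _ hn'.ne'
  have hlt : ∀ r, (f r - (k + 1)) % n < n := fun r => Int.emod_lt_of_pos _ hn'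
  have hle : ∀ r, g r ≤ f r := by
    intro r
    have : (f r - (k + 1)) % n ≤ f r - (k + 1) := by
      have h5 := Int.emod_add_mul_ediv (f r - (k + 1)) n
      have h6 : 0 ≤ (f r - (k + 1)) / n := Int.ediv_nonneg (by have := h1 r; omega) hn'.le
      nlinarith
    simp only [hg]
    linarith
  have key := sum_interval g (k + n) (fun r => by
      have := h0 r
      simp only [hg]
      linarith) (fun r => by
      have := hlt r
      simp only [hg]
      linarith) (fun r r' h => h3 r r' (((hmod r).symm.trans h).trans (hmod r')))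
  have hs : ∑ r, g r ≤ ∑ r, f r := sum_le_sum fun r _ => hle r
  have e : (n : ℤ) * (2 * k + n + 1) = (n : ℤ) * (2 * (k + n) - n + 1) := by ring
  rw [e, ← key]
  linarith

/-- The lift of a rank to the interval `(i - n, i]`. -/
lemma lift {n : ℕ} (hn : 0 < n) (i q : ℤ) :
    i - n < q + n * ((i - q) / n) ∧ q + n * ((i - q) / n) ≤ i := by
  have hn' : (0 : ℤ) < n := by exact_mod_cast hn
  have h1 := Int.emod_add_mul_ediv (i - q) n
  have h2 := Int.emod_nonneg (i - q) hn'.ne'
  have h3 := Int.emod_lt_of_pos (i - q) hn'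
  constructor <;> linarith

/-- The value at a shifted index. -/
lemma Rk_shift {n : ℕ} {x : Fin n → ℝ} {X : ℤ → ℝ} {ρ : Fin n → ℤ} (h : Rk n x X ρ) (i q : ℤ) :
    X (i + n * q) = X i + n * q := by
  have hnat : ∀ (d : ℕ) (i : ℤ), X (i + n * (d : ℤ)) = X i + n * (d : ℝ) := by
    intro d
    induction d with
    | zero => intro i; simp
    | succ d ih =>
      intro i
      have e : i + (n : ℤ) * ((d + 1 : ℕ) : ℤ) = (i + n * (d : ℤ)) + n := by push_cast; ring
      rw [e, h.per, ih]
      push_cast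
      ring
  rcases Int.le_total 0 q with hq | hq
  · obtain ⟨d, rfl⟩ := Int.eq_ofNat_of_zero_le hq
    exact_mod_cast hnat d i
  · obtain ⟨d, hd⟩ := Int.eq_ofNat_of_zero_le (neg_nonneg.2 hq)
    have hq' : q = -(d : ℤ) := by rw [← hd]; ring
    have := hnat d (i + n * q)
    rw [hq'] at this ⊢
    have e : i + (n : ℤ) * -(d : ℤ) + n * (d : ℤ) = i := by ring
    rw [e] at this
    push_cast
    linarith

end FLUXAux

open FLUXAux

theorem stmt_FLUX : Stmt_FLUX := by
  intro n hodd L hL z x y t X Y T ρ σ τ hX hY hT hpos i j k hneg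
  have hn : 0 < n := hodd.pos
  have hn' : (0 : ℤ) < n := by exact_mod_cast hn
  obtain ⟨h, hh⟩ := hodd
  have hh' : (n : ℤ) = 2 * (h : ℤ) + 1 := by exact_mod_cast hh
  -- lifts of rows and columns
  set m : Fin n → ℤ := fun r => (i - ρ r) / n with hm
  set a : Fin n → ℤ := fun c => (j - σ c) / n with ha
  have hm1 : ∀ r, i - n < ρ r + n * m r := fun r => (lift hn i (ρ r)).1
  have hm2 : ∀ r, ρ r + n * m r ≤ i := fun r => (lift hn i (ρ r)).2
  have ha1 : ∀ c, j - n < σ c + n * a c := fun c => (lift hn j (σ c)).1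
  have ha2 : ∀ c, σ c + n * a c ≤ j := fun c => (lift hn j (σ c)).2
  have hmodr : ∀ (q b : ℤ), q + n * b ≡ q [ZMOD n] := by
    intro q b
    exact Int.modEq_iff_dvd.2 ⟨-b, by ring⟩
  have hS1 := sum_interval (fun r => ρ r + n * m r) i hm1 hm2
    (fun r r' hr => hX.inj r r' (((hmodr _ _).symm.trans hr).trans (hmodr _ _)))
  have hS2 := sum_interval (fun c => σ c + n * a c) j ha1 ha2
    (fun r r' hr => hY.inj r r' (((hmodr _ _).symm.trans hr).trans (hmodr _ _)))
  rw [sum_add_distrib, hX.sum, zero_add, ← mul_sum] at hS1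
  rw [sum_add_distrib, hY.sum, zero_add, ← mul_sum] at hS2
  have hM : 2 * ∑ r, m r = 2 * i - n + 1 := by
    have : (n : ℤ) * (2 * ∑ r, m r) = (n : ℤ) * (2 * i - n + 1) := by rw [← hS1]; ring
    exact mul_left_cancel₀ hn'.ne' this
  have hA : 2 * ∑ c, a c = 2 * j - n + 1 := by
    have : (n : ℤ) * (2 * ∑ c, a c) = (n : ℤ) * (2 * j - n + 1) := by rw [← hS2]; ring
    exact mul_left_cancel₀ hn'.ne' this
  -- one row
  have hrow : ∀ r, (n : ℤ) * m r ≤ (i - (i + j + k) - 1) + ∑ c, z r c := by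
    intro r
    have hk : ∀ c, k < τ (L r c) + n * (z r c - m r - a c) := by
      intro c
      by_contra hcon
      rw [not_lt] at hcon
      have h1 := hT.mono hcon
      rw [Rk_shift hT, hT.eq] at h1
      have h2 := hX.mono (hm2 r)
      rw [Rk_shift hX, hX.eq] at h2
      have h3 := hY.mono (ha2 c)
      rw [Rk_shift hY, hY.eq] at h3
      have h4 := hpos r c
      push_cast at h1 h2 h3
      nlinarith
    have hinj : ∀ c c', τ (L r c) + n * (z r c - m r - a c) ≡
        τ (L r c') + n * (z r c' - m r - a c') [ZMOD n] → c = c' := by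
      intro c c' hc
      exact hL.1 r (hT.inj _ _ (((hmodr _ _).symm.trans hc).trans (hmodr _ _)))
    have hlow := sum_lower hn (fun c => τ (L r c) + n * (z r c - m r - a c)) k hk hinj
    have hbij : Function.Bijective (L r) := Finite.injective_iff_bijective.1 (hL.1 r)
    have hτ : ∑ c, τ (L r c) = 0 := by
      rw [← hT.sum]
      exact Function.Bijective.sum_comp hbij τ
    rw [sum_add_distrib, hτ, zero_add, ← mul_sum, sum_sub_distrib, sum_sub_distrib] at hlow
    have hcm : ∑ _c : Fin n, m r = n * m r := by simp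
    rw [hcm] at hlow
    have h5 : 2 * k + n + 1 ≤ 2 * ((∑ c, z r c) - n * m r - ∑ c, a c) := by
      have : (n : ℤ) * (2 * k + n + 1) ≤ (n : ℤ) * (2 * ((∑ c, z r c) - n * m r - ∑ c, a c)) := by
        calc (n : ℤ) * (2 * k + n + 1) ≤ 2 * (n * ((∑ c, z r c) - n * m r - ∑ c, a c)) := hlow
          _ = _ := by ring
      exact le_of_mul_le_mul_left this hn'
    linarith
  have hrow' : ∀ r, m r ≤ ((i - (i + j + k) - 1) + ∑ c, z r c) / (n : ℤ) := by
    intro r
    rw [Int.le_ediv_iff_mul_le hn']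
    have := hrow r
    linarith
  have htot : ∑ r, m r ≤ ∑ r, ((i - (i + j + k) - 1) + ∑ c, z r c) / (n : ℤ) :=
    sum_le_sum fun r _ => hrow' r
  unfold G
  have h6 : ((n : ℤ) - 1) / 2 = h := by rw [hh']; omega
  rw [h6]
  simp only
  have h7 : 2 * ∑ r, m r = 2 * i - 2 * h := by rw [hM, hh']; ring
  linarith

end Pool.Agent.Work.SR95
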