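import Pool.Agent.Work.SR95.Interface

/-!
# Block MAIN of the split theorem
-/

set_option autoImplicit false

open Finset

namespace Pool.Agent.Work.SR95

namespace MAINAux

lemma floor_flip (n : ℕ) (hn : 0 < n) (a : ℤ) : a / (n : ℤ) = -1 - (-a - 1) / (n : ℤ) := by
  have hn' : (0 : ℤ) < n := by exact_mod_cast hn
  have h1 := Int.emod_add_mul_ediv a n
  have h2 := Int.emod_nonneg a hn'.ne'
  have h3 := Int.emod_lt_of_pos a hn'
  have h : (-a - 1) / (n : ℤ) = -1 - a / n := by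
    rw [Int.ediv_eq_iff_of_pos hn']
    constructor <;> nlinarith
  rw [h]; ring

lemma G_neg {n : ℕ} (hodd : Odd n) (Z : Fin n → ℤ) (m : ℤ) :
    G n (fun r => -Z r) m = -G n Z (-m - 1) := by
  have hn : 0 < n := hodd.pos
  obtain ⟨h, hh⟩ := hodd
  have hh' : (n : ℤ) = 2 * (h : ℤ) + 1 := by exact_mod_cast hh
  have h6 : ((n : ℤ) - 1) / 2 = h := by rw [hh']; omega
  unfold G
  rw [h6]
  have hs : ∑ r, (m + -Z r) / (n : ℤ) = -(n : ℤ) - ∑ r, (-m - 1 + Z r) / (n : ℤ) := by
    have : ∀ r, (m + -Z r) / (n : ℤ) = -1 - (-m - 1 + Z r) / (n : ℤ) := by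
      intro r
      rw [floor_flip n hn (m + -Z r)]
      congr 2
      ring
    rw [sum_congr rfl fun r _ => this r, sum_sub_distrib]
    simp
  rw [hs]
  linarith

lemma G_per {n : ℕ} (hn : 0 < n) (Z : Fin n → ℤ) (m : ℤ) : G n Z (m + n) = G n Z m := by
  have hn' : (0 : ℤ) < n := by exact_mod_cast hn
  unfold G
  have : ∀ r, (m + n + Z r) / (n : ℤ) = (m + Z r) / (n : ℤ) + 1 := by
    intro r
    have e : m + n + Z r = (m + Z r) + n * 1 := by ring
    rw [e, Int.add_mul_ediv_left _ _ hn'.ne']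
  rw [sum_congr rfl fun r _ => this r, sum_add_distrib]
  simp
  ring

lemma cnt_le (n : ℕ) (Z : Fin n → ℤ) (c : ℤ) : cnt n Z c ≤ n := by
  unfold cnt
  exact (card_filter_le _ _).trans (card_range n).le

/-- The count for the negative. -/
lemma cnt_neg {n : ℕ} (hodd : Odd n) (Z : Fin n → ℤ) (c : ℤ) :
    cnt n (fun r => -Z r) (-c) + cnt n Z (c - 1) = n := by
  have hn : 0 < n := hodd.pos
  have h1 : cnt n (fun r => -Z r) (-c) =
      ((range n).filter fun m : ℕ => ¬ (c - 1 + 1 ≤ G n Z (m : ℤ))).card := by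
    unfold cnt
    refine card_bij (fun m _ => n - 1 - m) ?_ ?_ ?_
    · intro m hm
      rw [mem_filter, mem_range] at hm ⊢
      refine ⟨by omega, ?_⟩
      have h2 := hm.2
      rw [G_neg hodd] at h2
      have h3 : ((n - 1 - m : ℕ) : ℤ) = (-(m : ℤ) - 1) + n := by omega
      rw [h3, G_per hn]
      linarith
    · intro a ha b hb hab
      rw [mem_filter, mem_range] at ha hb
      omega
    · intro m hm
      rw [mem_filter, mem_range] at hm
      refine ⟨n - 1 - m, ?_, by omega⟩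
      rw [mem_filter, mem_range]
      refine ⟨by omega, ?_⟩
      rw [G_neg hodd]
      have h3 : -((n - 1 - m : ℕ) : ℤ) - 1 + n = (m : ℤ) := by omega
      have h4 := G_per hn Z (-((n - 1 - m : ℕ) : ℤ) - 1)
      rw [h3] at h4
      rw [← h4]
      have h5 := hm.2
      linarith [not_le.1 h5]
  rw [h1]
  unfold cnt
  rw [add_comm, card_filter_add_card_filter_not, card_range]

lemma cnt_large (n : ℕ) (Z : Fin n → ℤ) : ∃ c : ℤ, ∀ c', c ≤ c' → cnt n Z c' = 0 := by
  obtain ⟨B, hB⟩ : ∃ B : ℤ, ∀ m ∈ range n, G n Z (m : ℤ) ≤ B := by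
    obtain ⟨B, hB⟩ := ((range n).image fun m : ℕ => G n Z (m : ℤ)).bddAbove
    exact ⟨B, fun m hm => hB (mem_coe.2 (mem_image_of_mem _ hm))⟩
  refine ⟨B, fun c' hc' => ?_⟩
  unfold cnt
  rw [card_eq_zero, filter_eq_empty_iff]
  intro m hm h
  have := hB m hm
  omega

lemma cnt_small (n : ℕ) (Z : Fin n → ℤ) : ∃ c : ℤ, ∀ c', c' ≤ c → cnt n Z c' = n := by
  obtain ⟨B, hB⟩ : ∃ B : ℤ, ∀ m ∈ range n, B ≤ G n Z (m : ℤ) := by
    obtain ⟨B, hB⟩ := ((range n).image fun m : ℕ => G n Z (m : ℤ)).bddBelow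
    exact ⟨B, fun m hm => hB (mem_coe.2 (mem_image_of_mem _ hm))⟩
  refine ⟨B - 1, fun c' hc' => ?_⟩
  unfold cnt
  rw [filter_true_of_mem, card_range]
  intro m hm
  have := hB m hm
  omega

end MAINAux

open MAINAux

theorem stmt_MAIN (hSEP : Stmt_SEP) (hUP : Stmt_UP) : Stmt_MAIN := by
  intro n hodd L hL z
  have hn : 0 < n := hodd.pos
  set R : Fin n → ℤ := fun r => ∑ s, z r s with hR
  set S : Fin n → ℤ := fun s => ∑ r, z r s with hS
  -- the least value
  obtain ⟨c, hc1, hc2⟩ : ∃ c : ℤ, cnt n R c + cnt n S c ≤ n ∧ n < cnt n R (c - 1) + cnt n S (c - 1) := by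
    obtain ⟨u1, hu1⟩ := cnt_large n R
    obtain ⟨u2, hu2⟩ := cnt_large n S
    obtain ⟨l1, hl1⟩ := cnt_small n R
    obtain ⟨l2, hl2⟩ := cnt_small n S
    have hex : ∃ z : ℤ, cnt n R z + cnt n S z ≤ n := by
      refine ⟨max u1 u2, ?_⟩
      rw [hu1 _ (le_max_left _ _), hu2 _ (le_max_right _ _)]
      omega
    have hbd : ∃ b : ℤ, ∀ z : ℤ, cnt n R z + cnt n S z ≤ n → b ≤ z := by
      refine ⟨min l1 l2, fun z hz => ?_⟩
      by_contra hcon
      rw [not_le] at hcon
      rw [hl1 z (by omega), hl2 z (by omega)] at hz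
      omega
    obtain ⟨c, hc, hmin⟩ := Int.exists_least_of_bdd hbd hex
    refine ⟨c, hc, ?_⟩
    by_contra hcon
    rw [not_lt] at hcon
    have := hmin (c - 1) hcon
    omega
  have hup := hUP n hodd L hL z c hc1
  have hup' := hUP n hodd L hL (fun r s => -z r s) (-c) (by
    have e1 : (fun r => ∑ s, -z r s) = fun r => -R r := by
      funext r; rw [hR]; simp
    have e2 : (fun s => ∑ r, -z r s) = fun s => -S s := by
      funext r; rw [hS]; simp
    rw [e1, e2]
    have h1 := cnt_neg hodd R c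
    have h2 := cnt_neg hodd S c
    omega)
  rcases hSEP n hn L hL (fun r s => (z r s : ℝ)) (c : ℝ) with ⟨w, hw, hv⟩ | ⟨a, b, d, h1, h2⟩ |
    ⟨a, b, d, h1, h2⟩
  · exact ⟨w, c, hw, hv⟩
  · exact absurd (hup a b d h1) (not_le.2 h2)
  · exfalso
    have := hup' (fun r => -a r) (fun r => -b r) (fun r => -d r) (by
      intro r s
      push_cast
      have := h1 r s
      linarith)
    simp only [sum_neg_distrib] at this
    push_cast at this
    linarith

end Pool.Agent.Work.SR95
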