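import Mathlib

/-!
# Permanents = determinants between two finite types, characteristic two
-/

namespace Pool.Agent.Work.SR95

open Finset

section
variable {F : Type*} [CommRing F]
variable {α β γ ι : Type*} [Fintype α] [Fintype β] [Fintype γ] [Fintype ι]
variable [DecidableEq α] [DecidableEq β] [DecidableEq γ] [DecidableEq ι]

/-- the permanent of a matrix whose rows and columns are indexed by two types -/
def pd (M : α → β → F) : F := ∑ e : α ≃ β, ∏ a, M a (e a)

theorem pd_right (e0 : β ≃ γ) (M : α → γ → F) : pd (fun a b => M a (e0 b)) = pd M := by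
  unfold pd
  refine Fintype.sum_equiv ((Equiv.refl α).equivCongr e0) _ _ ?_
  intro e
  rfl

theorem pd_swap (M : α → β → F) : pd (fun b a => M a b) = pd M := by
  unfold pd
  refine Fintype.sum_equiv ⟨Equiv.symm, Equiv.symm, fun _ => rfl, fun _ => rfl⟩ _ _ ?_
  intro e
  simp only [Equiv.coe_fn_mk]
  refine Fintype.prod_equiv e _ _ ?_
  intro b
  simp

theorem pd_left (e0 : α ≃ γ) (M : γ → β → F) : pd (fun a b => M (e0 a) b) = pd M := by
  rw [← pd_swap, ← pd_swap M]
  exact pd_right e0 (fun b c => M c b)

theorem pd_congr {M N : α → β → F} (h : ∀ a b, M a b = N a b) : pd M = pd N := by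
  have : M = N := by
    funext a b
    exact h a b
  rw [this]

theorem pd_zero_of_card (M : α → β → F) (h : Fintype.card α ≠ Fintype.card β) : pd M = 0 := by
  unfold pd
  have : IsEmpty (α ≃ β) := ⟨fun e => h (Fintype.card_congr e)⟩
  simp

variable [CharP F 2]

theorem pd_zero_of_row (M : α → β → F) (a a' : α) (haa : a ≠ a') (h : ∀ b, M a b = M a' b) :
    pd M = 0 := by
  unfold pd
  refine Finset.sum_involution (fun e _ => (Equiv.swap a a').trans e) ?_ ?_ ?_ ?_
  · intro e _
    have : (∏ x, M x (((Equiv.swap a a').trans e) x)) = ∏ x, M x (e x) := by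
      rw [← Equiv.prod_comp (Equiv.swap a a')]
      refine Finset.prod_congr rfl ?_
      intro x _
      simp only [Equiv.trans_apply, Equiv.swap_apply_self]
      by_cases h1 : x = a
      · subst h1
        rw [Equiv.swap_apply_left]
        exact (h _).symm
      · by_cases h2 : x = a'
        · subst h2
          rw [Equiv.swap_apply_right]
          exact h _
        · rw [Equiv.swap_apply_of_ne_of_ne h1 h2]
    rw [this]
    exact CharTwo.add_self_eq_zero _
  · intro e _ _ he
    have h1 := congrArg (fun f : α ≃ β => f a) he
    simp only [Equiv.trans_apply, Equiv.swap_apply_left] at h1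
    exact haa (e.injective h1).symm
  · intro e _
    exact Finset.mem_univ _
  · intro e _
    ext x
    simp

/-- permanent = determinant in characteristic two -/
theorem pd_det (M : Matrix α α F) : pd (fun a b => M a b) = M.det := by
  rw [Matrix.det_apply]
  unfold pd
  rw [← Equiv.sum_comp (⟨Equiv.symm, Equiv.symm, fun _ => rfl, fun _ => rfl⟩ :
    Equiv.Perm α ≃ Equiv.Perm α)]
  refine Finset.sum_congr rfl ?_
  intro σ _
  simp only [Equiv.coe_fn_mk]
  have hs : (Equiv.Perm.sign σ : ℤˣ) • (∏ i, M (σ i) i) = ∏ i, M (σ i) i := by
    rcases Int.units_eq_one_or (Equiv.Perm.sign σ) with h | h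
    · rw [h, one_smul]
    · rw [h, Units.neg_smul, one_smul]
      exact CharTwo.neg_eq _
  rw [hs]
  refine Fintype.prod_equiv σ.symm _ _ ?_
  intro i
  simp

/-- Cauchy-Binet -/
theorem pd_mul (A : α → ι → F) (B : β → ι → F) :
    pd (fun a b => ∑ l, A a l * B b l) =
      ∑ I : Finset ι, pd (fun a (i : I) => A a i) * pd (fun b (i : I) => B b i) := by
  -- expand over all functions
  have h1 : pd (fun a b => ∑ l, A a l * B b l) =
      ∑ f : α → ι, (∏ a, A a (f a)) * pd (fun a b => B b (f a)) := by
    unfold pd
    simp_rw [Finset.prod_univ_sum, Fintype.piFinset_univ, Finset.prod_mul_distrib]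
    rw [Finset.sum_comm]
    refine Finset.sum_congr rfl ?_
    intro f _
    rw [Finset.mul_sum]
  -- only injective functions count
  have h2 : ∑ f : α → ι, (∏ a, A a (f a)) * pd (fun a b => B b (f a)) =
      ∑ f ∈ (univ : Finset (α → ι)).filter Function.Injective,
        (∏ a, A a (f a)) * pd (fun a b => B b (f a)) := by
    rw [Finset.sum_filter_of_ne]
    intro f _ hf
    by_contra hinj
    rw [Function.Injective] at hinj
    push Not at hinj
    obtain ⟨a, a', hfa, hne⟩ := hinj
    apply hf
    rw [pd_zero_of_row _ a a' hne (by intro b; rw [hfa]), mul_zero]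
  rw [h1, h2, ← Finset.sum_fiberwise (s := (univ : Finset (α → ι)).filter Function.Injective)
    (g := fun f => univ.image f)]
  refine Finset.sum_congr rfl ?_
  intro I _
  -- the fibre over `I` is `α ≃ I`
  have h3 : ∑ f ∈ ((univ : Finset (α → ι)).filter Function.Injective).filter
      (fun f => univ.image f = I), (∏ a, A a (f a)) * pd (fun a b => B b (f a)) =
      ∑ e : α ≃ I, (∏ a, A a (e a)) * pd (fun a b => B b (e a)) := by
    symm
    refine Finset.sum_bij (fun e _ => fun a => (e a : ι)) ?_ ?_ ?_ ?_
    · intro e _
      simp only [Finset.mem_filter, Finset.mem_univ, true_and]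
      refine ⟨fun a a' h => e.injective (Subtype.ext h), ?_⟩
      ext x
      simp only [Finset.mem_image, Finset.mem_univ, true_and]
      constructor
      · rintro ⟨a, rfl⟩
        exact (e a).2
      · intro hx
        exact ⟨e.symm ⟨x, hx⟩, by simp⟩
    · intro e _ e' _ h
      ext a
      exact congrFun h a
    · intro f hf
      simp only [Finset.mem_filter, Finset.mem_univ, true_and] at hf
      obtain ⟨hinj, him⟩ := hf
      have hmem : ∀ a, f a ∈ I := by
        intro a
        rw [← him]
        exact Finset.mem_image_of_mem _ (Finset.mem_univ _)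
      refine ⟨Equiv.ofBijective (fun a => (⟨f a, hmem a⟩ : I)) ⟨?_, ?_⟩, Finset.mem_univ _, ?_⟩
      · intro a a' h
        exact hinj (congrArg Subtype.val h)
      · rintro ⟨x, hx⟩
        rw [← him] at hx
        obtain ⟨a, _, ha⟩ := Finset.mem_image.1 hx
        exact ⟨a, Subtype.ext ha⟩
      · funext a
        rfl
    · intro e _
      rfl
  rw [h3]
  have h4 : ∀ e : α ≃ I, pd (fun a b => B b (e a)) = pd (fun b (i : I) => B b i) := by
    intro e
    rw [pd_left e (fun (i : I) b => B b i)]
    exact pd_swap (fun b (i : I) => B b i)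
  simp_rw [h4]
  rw [← Finset.sum_mul]
  rfl

/-- the identity matrix between two subsets -/
theorem pd_one (S T : Finset ι) :
    pd (fun (s : S) (t : T) => if (s : ι) = t then (1 : F) else 0) = if S = T then 1 else 0 := by
  unfold pd
  split_ifs with h
  · subst h
    rw [Finset.sum_eq_single (Equiv.refl S)]
    · simp
    · intro e _ he
      have : ∃ s, (e s) ≠ s := by
        by_contra hcon
        push Not at hcon
        exact he (Equiv.ext hcon)
      obtain ⟨s, hs⟩ := this
      exact Finset.prod_eq_zero (Finset.mem_univ s)
        (if_neg (fun h' => hs (Subtype.ext h'.symm)))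
    · intro h'
      exact absurd (Finset.mem_univ _) h'
  · refine Finset.sum_eq_zero ?_
    intro e _
    have : ∃ s : S, (s : ι) ≠ e s := by
      by_contra hcon
      push Not at hcon
      apply h
      ext x
      constructor
      · intro hx
        have := hcon ⟨x, hx⟩
        simp only at this
        rw [this]
        exact (e ⟨x, hx⟩).2
      · intro hx
        have := hcon (e.symm ⟨x, hx⟩)
        rw [Equiv.apply_symm_apply] at this
        simp only at this
        rw [← this]
        exact (e.symm ⟨x, hx⟩).2
    obtain ⟨s, hs⟩ := this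
    exact Finset.prod_eq_zero (Finset.mem_univ s) (if_neg hs)


theorem sign_smul_two (σ : Equiv.Perm α) (x : F) : (Equiv.Perm.sign σ : ℤˣ) • x = x := by
  rcases Int.units_eq_one_or (Equiv.Perm.sign σ) with h | h
  · rw [h, one_smul]
  · rw [h, Units.neg_smul, one_smul]
    exact CharTwo.neg_eq _

theorem det_perm_two (A : Matrix ι ι F) (E : Equiv.Perm ι) : (A.submatrix id E).det = A.det := by
  rw [Matrix.det_permute']
  rcases Int.units_eq_one_or (Equiv.Perm.sign E) with h | h
  · rw [h]
    simp
  · rw [h]
    simp [CharTwo.neg_eq]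

theorem jac_aux (A B : Matrix ι ι F) (h : A * B = 1) (p : ι → Prop) [DecidablePred p]
    (E : Equiv.Perm ι) :
    (Matrix.toSquareBlockProp (A.submatrix id E) (fun i => ¬ p i)).det =
      A.det * (Matrix.toSquareBlockProp (B.submatrix E id) p).det := by
  let A' : Matrix ι ι F := A.submatrix id E
  let B' : Matrix ι ι F := B.submatrix E id
  have hAB : A' * B' = 1 := by
    have := Matrix.submatrix_mul_equiv A B id E id
    rw [h] at this
    rw [show A' * B' = A.submatrix id E * B.submatrix E id from rfl, this]
    rfl
  let C : Matrix ι ι F := Matrix.of fun i j => if p j then B' i j else if i = j then 1 else 0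
  have hAC : ∀ i j, (A' * C) i j = if p j then (if i = j then 1 else 0) else A' i j := by
    intro i j
    rw [Matrix.mul_apply]
    split_ifs with hj hij
    · have := congrFun (congrFun hAB i) j
      rw [Matrix.mul_apply, Matrix.one_apply, if_pos hij] at this
      rw [← this]
      refine Finset.sum_congr rfl ?_
      intro l _
      simp [C, hj]
    · have := congrFun (congrFun hAB i) j
      rw [Matrix.mul_apply, Matrix.one_apply, if_neg hij] at this
      rw [← this]
      refine Finset.sum_congr rfl ?_
      intro l _
      simp [C, hj]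
    · simp [C, hj]
  have d1 : (A' * C).det = (Matrix.toSquareBlockProp A' fun i => ¬ p i).det := by
    rw [Matrix.twoBlockTriangular_det (A' * C) p]
    · have e1 : Matrix.toSquareBlockProp (A' * C) p = 1 := by
        ext i j
        rw [Matrix.toSquareBlockProp_def, Matrix.of_apply, hAC, if_pos j.2, Matrix.one_apply]
        simp only [Subtype.ext_iff]
      have e2 : Matrix.toSquareBlockProp (A' * C) (fun i => ¬ p i) =
          Matrix.toSquareBlockProp A' (fun i => ¬ p i) := by
        ext i j
        rw [Matrix.toSquareBlockProp_def, Matrix.of_apply, hAC, if_neg j.2]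
        rfl
      rw [e1, e2, Matrix.det_one, one_mul]
    · intro i hi j hj
      rw [hAC, if_pos hj, if_neg]
      rintro rfl
      exact hi hj
  have d2 : C.det = (Matrix.toSquareBlockProp B' p).det := by
    rw [Matrix.twoBlockTriangular_det' C p]
    · have e1 : Matrix.toSquareBlockProp C p = Matrix.toSquareBlockProp B' p := by
        ext i j
        rw [Matrix.toSquareBlockProp_def, Matrix.of_apply]
        simp only [C, Matrix.of_apply, if_pos j.2]
        rfl
      have e2 : Matrix.toSquareBlockProp C (fun i => ¬ p i) = 1 := by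
        ext i j
        rw [Matrix.toSquareBlockProp_def, Matrix.of_apply]
        simp only [C, Matrix.of_apply, if_neg j.2, Matrix.one_apply, Subtype.ext_iff]
      rw [e1, e2, Matrix.det_one, mul_one]
    · intro i hi j hj
      simp only [C, Matrix.of_apply, if_neg hj]
      rw [if_neg]
      rintro rfl
      exact hj hi
  have d3 : (A' * C).det = A.det * C.det := by
    rw [Matrix.det_mul, show A'.det = A.det from det_perm_two A E]
  rw [d1, d2] at d3
  exact d3

/-- Jacobi: complementary minors of a matrix and of its inverse. -/
theorem pd_jacobi (A B : Matrix ι ι F) (h : A * B = 1) (I U : Finset ι) :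
    pd (fun (i : (Iᶜ : Finset ι)) (u : (Uᶜ : Finset ι)) => A i u) =
      A.det * pd (fun (u : U) (i : I) => B u i) := by
  by_cases hc : I.card = U.card
  swap
  · rw [pd_zero_of_card, pd_zero_of_card, mul_zero]
    · simp only [Fintype.card_coe]
      exact fun h' => hc h'.symm
    · simp only [Fintype.card_coe, Finset.card_compl]
      intro h'
      apply hc
      have h1 := Finset.card_le_univ I
      have h2 := Finset.card_le_univ U
      omega
  · let e1 : {x // x ∈ I} ≃ {x // x ∈ U} := Finset.equivOfCardEq hc
    let E : Equiv.Perm ι := e1.extendSubtype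
    have hE : ∀ x, x ∈ I ↔ E x ∈ U := by
      intro x
      constructor
      · intro hx
        exact Equiv.extendSubtype_mem e1 x hx
      · intro hx
        by_contra hx'
        exact Equiv.extendSubtype_not_mem e1 x hx' hx
    obtain ⟨p, hp⟩ : ∃ p : ι → Prop, ∀ x, p x ↔ x ∈ I := ⟨fun x => x ∈ I, fun _ => Iff.rfl⟩
    classical
    have key := jac_aux A B h p E
    rw [← pd_det, ← pd_det (Matrix.toSquareBlockProp (B.submatrix E id) p)] at key
    have l1 : pd (fun (i : (Iᶜ : Finset ι)) (u : (Uᶜ : Finset ι)) => A i u) =
        pd (fun a b => Matrix.toSquareBlockProp (A.submatrix id E) (fun i => ¬ p i) a b) := by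
      let f1 : {i // ¬ p i} ≃ (Iᶜ : Finset ι) :=
        Equiv.subtypeEquivRight (fun x => by rw [hp, Finset.mem_compl])
      let f2 : {i // ¬ p i} ≃ (Uᶜ : Finset ι) :=
        E.subtypeEquiv (fun x => by rw [Finset.mem_compl, ← hE x, hp])
      rw [← pd_left f1, ← pd_right f2]
      refine pd_congr ?_
      intro a b
      rfl
    have l2 : pd (fun (u : U) (i : I) => B u i) =
        pd (fun a b => Matrix.toSquareBlockProp (B.submatrix E id) p a b) := by
      let f1 : {i // p i} ≃ (U : Finset ι) := E.subtypeEquiv (fun x => by rw [hp, hE x])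
      let f2 : {i // p i} ≃ (I : Finset ι) := Equiv.subtypeEquivRight (fun x => hp x)
      rw [← pd_left f1, ← pd_right f2]
      refine pd_congr ?_
      intro a b
      rfl
    rw [l1, l2, key]

end

end Pool.Agent.Work.SR95
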