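import Mathlib
import Pool.Agent.Work.SR95.PD
import Pool.Agent.Work.SR95.Interface

/-!
# Two-block Snevily: block T2
-/

namespace Pool.Agent.Work.SR95

open Finset

section
variable {n : ℕ} [NeZero n] {F : Type} [Field F] [CharP F 2] (ψ : AddChar (ZMod n) F)

/-- the number (in `F`) of bijections `U → V` with set of sums `S` -/
noncomputable def Nn (F : Type) [Field F] (U V S : Finset (ZMod n)) : F :=
  ∑ e : U ≃ V, pd (fun (u : U) (s : S) => if (u : ZMod n) + (e u : ZMod n) = s then (1 : F) else 0)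

theorem stepA (I U V : Finset (ZMod n)) :
    ∑ S : Finset (ZMod n), Nn F U V S * pd (fun (i : I) (s : S) => ψ ((i : ZMod n) * s)) =
      pd (fun (i : I) (u : U) => ψ ((i : ZMod n) * u)) *
        pd (fun (i : I) (v : V) => ψ ((i : ZMod n) * v)) := by
  have h1 : ∀ e : U ≃ V, ∑ S : Finset (ZMod n),
      pd (fun (u : U) (s : S) => if (u : ZMod n) + (e u : ZMod n) = s then (1 : F) else 0) *
        pd (fun (i : I) (s : S) => ψ ((i : ZMod n) * s)) =
      pd (fun (u : U) (i : I) => ψ ((i : ZMod n) * ((u : ZMod n) + (e u : ZMod n)))) := by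
    intro e
    rw [← pd_mul (fun (u : U) (l : ZMod n) => if (u : ZMod n) + (e u : ZMod n) = l then (1 : F)
      else 0) (fun (i : I) (l : ZMod n) => ψ ((i : ZMod n) * l))]
    refine pd_congr ?_
    intro u i
    simp
  unfold Nn
  simp_rw [Finset.sum_mul]
  rw [Finset.sum_comm]
  simp_rw [h1]
  have h2 : ∑ e : U ≃ V, pd (fun (u : U) (i : I) =>
      ψ ((i : ZMod n) * ((u : ZMod n) + (e u : ZMod n)))) =
      ∑ f : U ≃ I, (∏ u, ψ ((f u : ZMod n) * (u : ZMod n))) *
        pd (fun (u : U) (v : V) => ψ ((f u : ZMod n) * (v : ZMod n))) := by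
    unfold pd
    rw [Finset.sum_comm]
    refine Finset.sum_congr rfl ?_
    intro f _
    rw [Finset.mul_sum]
    refine Finset.sum_congr rfl ?_
    intro e _
    rw [← Finset.prod_mul_distrib]
    refine Finset.prod_congr rfl ?_
    intro u _
    show ψ ((f u : ZMod n) * ((u : ZMod n) + (e u : ZMod n))) =
      ψ ((f u : ZMod n) * (u : ZMod n)) * ψ ((f u : ZMod n) * (e u : ZMod n))
    rw [mul_add, AddChar.map_add_eq_mul]
  rw [h2]
  have h3 : ∀ f : U ≃ I, pd (fun (u : U) (v : V) => ψ ((f u : ZMod n) * (v : ZMod n))) =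
      pd (fun (i : I) (v : V) => ψ ((i : ZMod n) * v)) := by
    intro f
    exact pd_left f (fun (i : I) (v : V) => ψ ((i : ZMod n) * v))
  simp_rw [h3]
  rw [← Finset.sum_mul]
  congr 1
  exact pd_swap (fun (i : I) (u : U) => ψ ((i : ZMod n) * u))

theorem orth (hψ : ψ.IsPrimitive) (hn : Odd n) (s t : ZMod n) :
    ∑ l : ZMod n, ψ (l * s) * ψ (-(l * t)) = if s = t then 1 else 0 := by
  have h1 : ∀ l : ZMod n, ψ (l * s) * ψ (-(l * t)) = ψ (l * (s - t)) := by
    intro l
    rw [← AddChar.map_add_eq_mul]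
    congr 1
    ring
  simp_rw [h1]
  rw [AddChar.sum_mulShift _ hψ]
  simp only [sub_eq_zero, ZMod.card]
  split_ifs
  · obtain ⟨k, hk⟩ := hn
    rw [hk]
    push_cast
    rw [CharTwo.two_eq_zero]
    simp
  · simp

theorem stepC (hψ : ψ.IsPrimitive) (hn : Odd n) (U V S : Finset (ZMod n)) :
    Nn F U V S = ∑ I : Finset (ZMod n), pd (fun (i : I) (u : U) => ψ ((i : ZMod n) * u)) *
        pd (fun (i : I) (v : V) => ψ ((i : ZMod n) * v)) *
          pd (fun (i : I) (s : S) => ψ (-((i : ZMod n) * s))) := by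
  simp_rw [← stepA, Finset.sum_mul]
  rw [Finset.sum_comm]
  have h1 : ∀ T : Finset (ZMod n), ∑ I : Finset (ZMod n),
      Nn F U V T * pd (fun (i : I) (s : T) => ψ ((i : ZMod n) * s)) *
        pd (fun (i : I) (s : S) => ψ (-((i : ZMod n) * s))) =
      Nn F U V T * (if T = S then 1 else 0) := by
    intro T
    simp_rw [mul_assoc]
    rw [← Finset.mul_sum]
    congr 1
    have h2 := pd_mul (F := F) (fun (t : T) (l : ZMod n) => ψ (l * t))
      (fun (s : S) (l : ZMod n) => ψ (-(l * s)))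
    simp_rw [orth ψ hψ hn] at h2
    rw [pd_one] at h2
    rw [h2]
    refine Finset.sum_congr rfl ?_
    intro I _
    congr 1
    · exact (pd_swap (fun (i : I) (t : T) => ψ ((i : ZMod n) * t))).symm
    · exact (pd_swap (fun (i : I) (s : S) => ψ (-((i : ZMod n) * s)))).symm
  simp_rw [h1]
  simp

/-- a finite set and its negative -/
def negEquiv (J : Finset (ZMod n)) :
    J ≃ (J.map (Equiv.neg (ZMod n)).toEmbedding : Finset (ZMod n)) where
  toFun j := ⟨-(j : ZMod n), Finset.mem_map.2 ⟨j, j.2, rfl⟩⟩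
  invFun j := ⟨-(j : ZMod n), by
    obtain ⟨x, hx, hx'⟩ := Finset.mem_map.1 j.2
    rw [← hx']
    simpa using hx⟩
  left_inv j := Subtype.ext (neg_neg _)
  right_inv j := Subtype.ext (neg_neg _)

/-- the two character matrices -/
def MA : Matrix (ZMod n) (ZMod n) F := Matrix.of fun i j => ψ (i * j)
def MB : Matrix (ZMod n) (ZMod n) F := Matrix.of fun i j => ψ (-(i * j))

theorem MA_MB (hψ : ψ.IsPrimitive) (hn : Odd n) : MA ψ * MB ψ = 1 := by
  ext i j
  rw [Matrix.mul_apply, Matrix.one_apply, ← orth ψ hψ hn]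
  refine Finset.sum_congr rfl ?_
  intro l _
  simp only [MA, MB, Matrix.of_apply]
  rw [mul_comm i l]

theorem MB_MA (hψ : ψ.IsPrimitive) (hn : Odd n) : MB ψ * MA ψ = 1 :=
  mul_eq_one_comm.1 (MA_MB ψ hψ hn)

theorem stepD (hψ : ψ.IsPrimitive) (hn : Odd n) (U V S : Finset (ZMod n)) :
    Nn F Uᶜ Vᶜ Sᶜ = (MA ψ).det * (MA ψ).det * (MB ψ).det * Nn F U V S := by
  rw [stepC ψ hψ hn Uᶜ Vᶜ Sᶜ, stepC ψ hψ hn U V S, Finset.mul_sum]
  -- reindex the left side by complements and the right side by negation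
  have hL : ∀ g : Finset (ZMod n) → F, ∑ I : Finset (ZMod n), g I = ∑ I : Finset (ZMod n), g Iᶜ := by
    intro g
    refine Fintype.sum_equiv ⟨fun I => Iᶜ, fun I => Iᶜ, fun I => compl_compl I,
      fun I => compl_compl I⟩ _ _ ?_
    intro I
    simp
  have hR : ∀ g : Finset (ZMod n) → F, ∑ I : Finset (ZMod n), g I =
      ∑ I : Finset (ZMod n), g (I.map (Equiv.neg (ZMod n)).toEmbedding) := by
    intro g
    exact (Equiv.sum_comp (Equiv.finsetCongr (Equiv.neg (ZMod n))) g).symm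
  rw [hL, hR (fun I => (MA ψ).det * (MA ψ).det * (MB ψ).det *
    (pd (fun (i : I) (u : U) => ψ ((i : ZMod n) * u)) *
        pd (fun (i : I) (v : V) => ψ ((i : ZMod n) * v)) *
          pd (fun (i : I) (s : S) => ψ (-((i : ZMod n) * s)))))]
  refine Finset.sum_congr rfl ?_
  intro J _
  have j1 : ∀ W : Finset (ZMod n), pd (fun (i : (Jᶜ : Finset (ZMod n))) (u : (Wᶜ : Finset (ZMod n)))
      => ψ ((i : ZMod n) * u)) =
      (MA ψ).det * pd (fun (i : (J.map (Equiv.neg (ZMod n)).toEmbedding : Finset (ZMod n))) (u : W)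
        => ψ ((i : ZMod n) * u)) := by
    intro W
    have h1 := pd_jacobi (MA ψ) (MB ψ) (MA_MB ψ hψ hn) J W
    rw [show (fun (i : (Jᶜ : Finset (ZMod n))) (u : (Wᶜ : Finset (ZMod n)))
      => ψ ((i : ZMod n) * u)) = fun (i : (Jᶜ : Finset (ZMod n))) (u : (Wᶜ : Finset (ZMod n))) =>
        MA ψ i u from rfl, h1]
    congr 1
    rw [← pd_left (negEquiv J), ← pd_swap]
    refine pd_congr ?_
    intro j w
    simp only [MB, Matrix.of_apply]
    congr 1
    simp [negEquiv, mul_comm]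
  have j2 : pd (fun (i : (Jᶜ : Finset (ZMod n))) (u : (Sᶜ : Finset (ZMod n)))
      => ψ (-((i : ZMod n) * u))) =
      (MB ψ).det * pd (fun (i : (J.map (Equiv.neg (ZMod n)).toEmbedding : Finset (ZMod n))) (u : S)
        => ψ (-((i : ZMod n) * u))) := by
    have h1 := pd_jacobi (MB ψ) (MA ψ) (MB_MA ψ hψ hn) J S
    rw [show (fun (i : (Jᶜ : Finset (ZMod n))) (u : (Sᶜ : Finset (ZMod n)))
      => ψ (-((i : ZMod n) * u))) = fun (i : (Jᶜ : Finset (ZMod n))) (u : (Sᶜ : Finset (ZMod n))) =>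
        MB ψ i u from rfl, h1]
    congr 1
    rw [← pd_left (negEquiv J), ← pd_swap]
    refine pd_congr ?_
    intro j w
    simp only [MA, Matrix.of_apply]
    congr 1
    simp [negEquiv, mul_comm]
  rw [j1, j1, j2]
  ring

theorem det_ne (hψ : ψ.IsPrimitive) (hn : Odd n) : (MA ψ).det ≠ 0 ∧ (MB ψ).det ≠ 0 := by
  have h := congrArg Matrix.det (MA_MB ψ hψ hn)
  rw [Matrix.det_mul, Matrix.det_one] at h
  constructor
  · intro h0
    rw [h0, zero_mul] at h
    exact zero_ne_one h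
  · intro h0
    rw [h0, mul_zero] at h
    exact zero_ne_one h

theorem stepE (hinj : Function.Injective ψ) (r : ℕ) (hr : r ≤ n) :
    ∃ I : Finset (ZMod n), ∀ U : Finset (ZMod n), U.card = r →
      pd (fun (i : I) (u : U) => ψ ((i : ZMod n) * u)) ≠ 0 := by
  have hcast : ∀ a b : ℕ, a < n → b < n → (a : ZMod n) = (b : ZMod n) → a = b := by
    intro a b ha hb hab
    have := congrArg ZMod.val hab
    rwa [ZMod.val_natCast_of_lt ha, ZMod.val_natCast_of_lt hb] at this
  refine ⟨(univ : Finset (Fin r)).image (fun k : Fin r => ((k : ℕ) : ZMod n)), ?_⟩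
  intro U hU
  let e0 : Fin r ≃ ((univ : Finset (Fin r)).image (fun k : Fin r => ((k : ℕ) : ZMod n)) : Finset (ZMod n)) :=
    Equiv.ofBijective (fun k : Fin r => ⟨((k : ℕ) : ZMod n), Finset.mem_image_of_mem _ (Finset.mem_univ k)⟩)
      ⟨fun a b hab => Fin.ext (hcast a b (lt_of_lt_of_le a.2 hr) (lt_of_lt_of_le b.2 hr)
        (congrArg Subtype.val hab)), fun y => by
          obtain ⟨k, _, hk⟩ := Finset.mem_image.1 y.2
          exact ⟨k, Subtype.ext hk⟩⟩
  let e1 : Fin r ≃ U := (Finset.equivFinOfCardEq hU).symm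
  rw [← pd_left e0, ← pd_right e1]
  have h1 : pd (fun (a b : Fin r) => ψ (((e0 a : ZMod n)) * (e1 b : ZMod n))) =
      (Matrix.vandermonde (fun b => ψ (e1 b : ZMod n))).det := by
    rw [← Matrix.det_transpose, ← pd_det]
    refine pd_congr ?_
    intro a b
    rw [Matrix.transpose_apply, Matrix.vandermonde_apply]
    show ψ (((a : ℕ) : ZMod n) * (e1 b : ZMod n)) = _
    rw [← nsmul_eq_mul, AddChar.map_nsmul_eq_pow]
  rw [h1, Matrix.det_vandermonde_ne_zero_iff]
  intro a b hab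
  exact e1.injective (Subtype.ext (hinj hab))

end

theorem odd_cast (F : Type) [Field F] [CharP F 2] (n : ℕ) (hn : Odd n) : (n : F) = 1 := by
  obtain ⟨k, hk⟩ := hn
  rw [hk]
  push_cast
  rw [CharTwo.two_eq_zero]
  simp

theorem exists_char (n : ℕ) [NeZero n] (hn : Odd n) :
    ∃ (F : Type) (_ : Field F) (_ : CharP F 2) (ψ : AddChar (ZMod n) F),
      ψ.IsPrimitive ∧ Function.Injective ψ := by
  have : Fact (Nat.Prime 2) := ⟨Nat.prime_two⟩
  let F := AlgebraicClosure (ZMod 2)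
  have hF2 : CharP F 2 := charP_of_injective_algebraMap (algebraMap (ZMod 2) F).injective 2
  have hne : NeZero (n : F) := by
    constructor
    rw [odd_cast F n hn]
    exact one_ne_zero
  obtain ⟨ζ, hζ⟩ : ∃ ζ : F, IsPrimitiveRoot ζ n := by
    have hdeg : (Polynomial.cyclotomic n F).degree ≠ 0 := by
      rw [Polynomial.degree_cyclotomic]
      have : 0 < Nat.totient n := Nat.totient_pos.2 (Nat.pos_of_ne_zero (NeZero.ne n))
      exact_mod_cast this.ne'
    obtain ⟨ζ, hζ⟩ := IsAlgClosed.exists_root _ hdeg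
    exact ⟨ζ, Polynomial.isRoot_cyclotomic_iff.1 hζ⟩
  refine ⟨F, inferInstance, inferInstance, AddChar.zmodChar n ((IsPrimitiveRoot.iff_def ζ n).mp hζ).left,
    AddChar.zmodChar_primitive_of_primitive_root n hζ, ?_⟩
  intro a b hab
  rw [AddChar.zmodChar_apply, AddChar.zmodChar_apply] at hab
  exact ZMod.val_injective n (hζ.pow_inj (ZMod.val_lt a) (ZMod.val_lt b) hab)

theorem stmt_T2 : Stmt_T2 := by
  intro n _ hn U V hUV
  obtain ⟨F, _, _, ψ, hψ, hinj⟩ := exists_char n hn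
  have hr : U.card ≤ n := by
    have := Finset.card_le_univ U
    rwa [ZMod.card] at this
  obtain ⟨I, hI⟩ := stepE ψ hinj U.card hr
  -- some `S` with nonzero count
  obtain ⟨S, hS⟩ : ∃ S : Finset (ZMod n), Nn F U V S ≠ 0 := by
    by_contra hcon
    push Not at hcon
    have h1 := stepA ψ I U V
    simp only [hcon, zero_mul, Finset.sum_const_zero] at h1
    rcases mul_eq_zero.1 h1.symm with h | h
    · exact hI U rfl h
    · exact hI V hUV.symm h
  have hS' : Nn F Uᶜ Vᶜ Sᶜ ≠ 0 := by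
    rw [stepD ψ hψ hn]
    exact mul_ne_zero (mul_ne_zero (mul_ne_zero (det_ne ψ hψ hn).1 (det_ne ψ hψ hn).1)
      (det_ne ψ hψ hn).2) hS
  -- extract bijections
  have key : ∀ (A B C : Finset (ZMod n)), Nn F A B C ≠ 0 →
      ∃ (e : A ≃ B) (g : A ≃ C), ∀ a : A, (a : ZMod n) + (e a : ZMod n) = g a := by
    intro A B C h
    obtain ⟨e, _, he⟩ := Finset.exists_ne_zero_of_sum_ne_zero h
    obtain ⟨g, _, hg⟩ := Finset.exists_ne_zero_of_sum_ne_zero he
    refine ⟨e, g, ?_⟩
    intro a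
    by_contra hne
    exact hg (Finset.prod_eq_zero (Finset.mem_univ a) (if_neg hne))
  obtain ⟨e0, g0, h0⟩ := key U V S hS
  obtain ⟨e1, g1, h1⟩ := key Uᶜ Vᶜ Sᶜ hS'
  -- glue
  let f : ZMod n → ZMod n := fun x => if hx : x ∈ U then (e0 ⟨x, hx⟩ : ZMod n) else
    (e1 ⟨x, Finset.mem_compl.2 hx⟩ : ZMod n)
  have fin : ∀ x (hx : x ∈ U), f x = e0 ⟨x, hx⟩ := by
    intro x hx
    simp [f, hx]
  have fout : ∀ x (hx : x ∉ U), f x = e1 ⟨x, Finset.mem_compl.2 hx⟩ := by
    intro x hx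
    simp [f, hx]
  have fsurj : Function.Surjective f := by
    intro y
    by_cases hy : y ∈ V
    · refine ⟨e0.symm ⟨y, hy⟩, ?_⟩
      rw [fin _ (e0.symm ⟨y, hy⟩).2]
      simp
    · refine ⟨e1.symm ⟨y, Finset.mem_compl.2 hy⟩, ?_⟩
      rw [fout _ (Finset.mem_compl.1 (e1.symm ⟨y, Finset.mem_compl.2 hy⟩).2)]
      simp
  have gsurj : Function.Surjective (fun x => x + f x) := by
    intro y
    by_cases hy : y ∈ S
    · refine ⟨g0.symm ⟨y, hy⟩, ?_⟩
      show _ + f _ = y
      rw [fin _ (g0.symm ⟨y, hy⟩).2]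
      have := h0 (g0.symm ⟨y, hy⟩)
      simpa using this
    · refine ⟨g1.symm ⟨y, Finset.mem_compl.2 hy⟩, ?_⟩
      show _ + f _ = y
      rw [fout _ (Finset.mem_compl.1 (g1.symm ⟨y, Finset.mem_compl.2 hy⟩).2)]
      have := h1 (g1.symm ⟨y, Finset.mem_compl.2 hy⟩)
      simpa using this
  have fbij : Function.Bijective f := ⟨Finite.injective_iff_surjective.2 fsurj, fsurj⟩
  refine ⟨Equiv.ofBijective f fbij, ?_, ⟨Finite.injective_iff_surjective.2 gsurj, gsurj⟩⟩
  intro x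
  show x ∈ U ↔ f x ∈ V
  constructor
  · intro hx
    rw [fin x hx]
    exact (e0 ⟨x, hx⟩).2
  · intro hx
    by_contra hx'
    rw [fout x hx'] at hx
    exact Finset.mem_compl.1 (e1 ⟨x, Finset.mem_compl.2 hx'⟩).2 hx

end Pool.Agent.Work.SR95
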